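import Mathlib

/-!
# Independent rank two progressions with the same generators

`κ = ∑ 2 ^ (E - 4 ^ (i + 1))` modulo `2 ^ E`.
-/

set_option autoImplicit false

namespace Pool.Agent.Q250.VC

/-- exponents -/
def ex (j : ℕ) : ℕ := 4 ^ (j + 1)

/-- periods -/
def pp (E j : ℕ) : ℤ := 2 ^ (E - ex j)

lemma ex_lt {i j : ℕ} (h : i < j) : 2 * ex i + 3 + (j - i) ≤ ex j := by
  obtain ⟨d, rfl⟩ : ∃ d, j = i + 1 + d := ⟨j - i - 1, by omega⟩
  induction d with
  | zero =>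
    have h1 : ex (i + 1 + 0) = 4 * ex i := by unfold ex; ring
    have h2 : 4 ≤ ex i := by
      unfold ex
      calc 4 = 4 ^ 1 := by norm_num
        _ ≤ 4 ^ (i + 1) := Nat.pow_le_pow_right (by norm_num) (by omega)
    omega
  | succ d ih =>
    have h1 : ex (i + 1 + (d + 1)) = 4 * ex (i + 1 + d) := by unfold ex; ring
    have := ih (by omega)
    omega

lemma ex_mono {i j : ℕ} (h : i < j) : ex i < ex j := by
  have := ex_lt h
  omega

lemma pp_pos (E j : ℕ) : 0 < pp E j := by unfold pp; positivity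

/-- the sum of the later periods is small -/
lemma tail_small (E m : ℕ) (hE : ∀ j < m, ex j + 3 ≤ E) (j : ℕ) (hj : j < m) :
    4 * 2 ^ ex j * ∑ i ∈ Finset.Ico (j + 1) m, pp E i < pp E j := by
  have key : ∀ i ∈ Finset.Ico (j + 1) m, 4 * 2 ^ ex j * pp E i ≤ 2 ^ (E - ex j - 1 - (i - j)) := by
    intro i hi
    rw [Finset.mem_Ico] at hi
    have h1 := ex_lt (i := j) (j := i) (by omega)
    have h2 := hE i hi.2
    unfold pp
    rw [show (4 : ℤ) = 2 ^ 2 by norm_num, ← pow_add, ← pow_add]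
    exact pow_le_pow_right₀ (by norm_num) (by omega)
  have h3 : 4 * 2 ^ ex j * ∑ i ∈ Finset.Ico (j + 1) m, pp E i ≤
      ∑ i ∈ Finset.Ico (j + 1) m, (2 : ℤ) ^ (E - ex j - 1 - (i - j)) := by
    rw [Finset.mul_sum]
    exact Finset.sum_le_sum key
  have h4 : ∀ n, j + 1 ≤ n → n ≤ m → ∑ i ∈ Finset.Ico (j + 1) n, (2 : ℤ) ^ (E - ex j - 1 - (i - j)) +
      2 ^ (E - ex j - 1 - (n - 1 - j)) = 2 ^ (E - ex j - 1) := by
    intro n hn hnm
    induction n, hn using Nat.le_induction with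
    | base => simp
    | succ n hn ih =>
      have ih' := ih (by omega)
      rw [Finset.sum_Ico_succ_top (by omega)]
      have hb : n - j + 1 ≤ E - ex j - 1 := by
        have h1 := ex_lt (i := j) (j := n) (by omega)
        have h2 := hE n (by omega)
        omega
      have e1 : E - ex j - 1 - (n - 1 - j) = (E - ex j - 1 - (n - j)) + 1 := by omega
      have e2 : n + 1 - 1 - j = n - j := by omega
      rw [e1, pow_succ] at ih'
      rw [e2]
      linarith
  have h5 := h4 m (by omega) le_rfl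
  have h6 : (0 : ℤ) < 2 ^ (E - ex j - 1 - (m - 1 - j)) := by positivity
  have h7 : (2 : ℤ) ^ (E - ex j - 1) ≤ pp E j := by
    unfold pp
    exact pow_le_pow_right₀ (by norm_num) (by omega)
  linarith

lemma dvd_head (E j : ℕ) (hE : ex j ≤ E) : 2 * pp E j ∣ ∑ i ∈ Finset.range j, pp E i := by
  apply Finset.dvd_sum
  intro i hi
  rw [Finset.mem_range] at hi
  have := ex_mono hi
  unfold pp
  rw [← pow_succ']
  exact pow_dvd_pow _ (by omega)

/-- the multiplier -/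
def kap (E m : ℕ) : ℤ := ∑ i ∈ Finset.range m, pp E i

lemma kap_split (E m j : ℕ) (hj : j < m) (hE : ex j ≤ E) : ∃ x : ℤ, Odd x ∧
    kap E m = pp E j * x + ∑ i ∈ Finset.Ico (j + 1) m, pp E i := by
  obtain ⟨y, hy⟩ := dvd_head E j hE
  refine ⟨2 * y + 1, ⟨y, rfl⟩, ?_⟩
  unfold kap
  rw [← Finset.sum_range_add_sum_Ico (fun i => pp E i) (show j + 1 ≤ m by omega), Finset.sum_range_succ, hy]
  ring

lemma tail_nonneg (E m j : ℕ) : 0 ≤ ∑ i ∈ Finset.Ico (j + 1) m, pp E i :=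
  Finset.sum_nonneg fun i _ => (pp_pos E i).le

lemma pp_mul (E j : ℕ) (h : ex j ≤ E) : pp E j * 2 ^ ex j = 2 ^ E := by
  unfold pp
  rw [← pow_add]
  congr 1
  omega

/-- remainders in the first zone are hit -/
lemma hit (E m : ℕ) (hE : ∀ j < m, ex j + 3 ≤ E) (j : ℕ) (hj : j < m) (k ρ : ℤ)
    (h1 : pp E j ≤ 4 * ρ) (h2 : 2 * ρ ≤ pp E j) :
    ∃ a c : ℤ, 0 ≤ a ∧ a < 2 ^ ex j ∧ 0 ≤ c ∧ 2 * c ≤ pp E j ∧
      (2 : ℤ) ^ E ∣ pp E j * k + ρ - (kap E m * a + c) := by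
  have hEj := hE j hj
  obtain ⟨x, hx, hk⟩ := kap_split E m j hj (by omega)
  have hcop : IsCoprime x ((2 : ℤ) ^ ex j) := by
    apply IsCoprime.pow_right
    obtain ⟨y, hy⟩ := hx
    exact ⟨1, -y, by rw [hy]; ring⟩
  obtain ⟨u, v, huv⟩ := hcop
  set B : ℤ := 2 ^ ex j with hB
  have hBpos : 0 < B := by positivity
  set a : ℤ := (k * u) % B with ha
  have ha0 : 0 ≤ a := Int.emod_nonneg _ hBpos.ne'
  have ha1 : a < B := Int.emod_lt_of_pos _ hBpos
  set T : ℤ := ∑ i ∈ Finset.Ico (j + 1) m, pp E i with hT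
  have hT0 : 0 ≤ T := tail_nonneg E m j
  have hsm : 4 * B * T < pp E j := tail_small E m hE j hj
  have hTa : 4 * (T * a) < pp E j := by
    have : T * a ≤ T * B := mul_le_mul_of_nonneg_left ha1.le hT0
    nlinarith
  have hTa0 : 0 ≤ T * a := mul_nonneg hT0 ha0
  refine ⟨a, ρ - T * a, ha0, ha1, by linarith, by linarith, ?_⟩
  have e1 : pp E j * k + ρ - (kap E m * a + (ρ - T * a)) = pp E j * (k - x * a) := by
    rw [hk]; ring
  rw [e1, ← pp_mul E j (by omega)]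
  apply mul_dvd_mul_left
  have e2 : k * u = B * (k * u / B) + a := by rw [ha]; exact (Int.mul_ediv_add_emod _ _).symm
  refine ⟨k * v + x * (k * u / B), ?_⟩
  have e3 : a = k * u - B * (k * u / B) := by linarith
  rw [e3]
  have e4 : k = k * (u * x + v * B) := by rw [huv]; ring
  calc k - x * (k * u - B * (k * u / B)) = k * (u * x + v * B) - x * (k * u - B * (k * u / B)) := by
        rw [← e4]
    _ = B * (k * v + x * (k * u / B)) := by ring

/-- remainders in the last zone are not hit -/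
lemma miss (E m : ℕ) (hE : ∀ j < m, ex j + 3 ≤ E) (j : ℕ) (hj : j < m) (k ρ : ℤ)
    (h1 : 3 * pp E j ≤ 4 * ρ) (h2 : ρ < pp E j) (a c : ℤ) (ha0 : 0 ≤ a) (ha1 : a < 2 ^ ex j)
    (hc0 : 0 ≤ c) (hc1 : 2 * c ≤ pp E j)
    (hd : (2 : ℤ) ^ E ∣ pp E j * k + ρ - (kap E m * a + c)) : False := by
  have hEj := hE j hj
  obtain ⟨x, hx, hk⟩ := kap_split E m j hj (by omega)
  set T : ℤ := ∑ i ∈ Finset.Ico (j + 1) m, pp E i with hT
  have hT0 : 0 ≤ T := tail_nonneg E m j
  have hsm : 4 * 2 ^ ex j * T < pp E j := tail_small E m hE j hj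
  have hTa : 4 * (T * a) < pp E j := by
    have : T * a ≤ T * 2 ^ ex j := mul_le_mul_of_nonneg_left ha1.le hT0
    nlinarith
  have hTa0 : 0 ≤ T * a := mul_nonneg hT0 ha0
  have hd2 : pp E j ∣ pp E j * k + ρ - (kap E m * a + c) := by
    refine dvd_trans ?_ hd
    rw [← pp_mul E j (by omega)]
    exact dvd_mul_right _ _
  rw [hk] at hd2
  have hd3 : pp E j ∣ ρ - T * a - c := by
    have : ρ - T * a - c = (pp E j * k + ρ - ((pp E j * x + T) * a + c)) - pp E j * (k - x * a) := by ring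
    rw [this]
    exact dvd_sub hd2 (dvd_mul_right _ _)
  have hpos : 0 < ρ - T * a - c := by linarith
  have := Int.le_of_dvd hpos hd3
  linarith

/-- the sum of `pp E i / 4` over `S` and `3 * pp E i / 4` over the rest -/
def rr (E m : ℕ) (S : Finset ℕ) : ℤ :=
  ∑ i ∈ Finset.range m, (if i ∈ S then 1 else 3) * 2 ^ (E - ex i - 2)

lemma rr_split (E m : ℕ) (hE : ∀ j < m, ex j + 3 ≤ E) (S : Finset ℕ) (j : ℕ) (hj : j < m) :
    ∃ k σ : ℤ, 0 ≤ σ ∧ 4 * σ < pp E j ∧
      rr E m S = pp E j * k + ((if j ∈ S then 1 else 3) * 2 ^ (E - ex j - 2) + σ) := by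
  have hEj := hE j hj
  have hd : pp E j ∣ ∑ i ∈ Finset.range j, ((if i ∈ S then 1 else 3) * 2 ^ (E - ex i - 2) : ℤ) := by
    apply Finset.dvd_sum
    intro i hi
    rw [Finset.mem_range] at hi
    apply Dvd.dvd.mul_left
    unfold pp
    have h1 := ex_lt hi
    exact pow_dvd_pow _ (by omega)
  obtain ⟨k, hk⟩ := hd
  refine ⟨k, ∑ i ∈ Finset.Ico (j + 1) m, ((if i ∈ S then 1 else 3) * 2 ^ (E - ex i - 2) : ℤ), ?_, ?_, ?_⟩
  · apply Finset.sum_nonneg
    intro i _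
    positivity
  · have h1 : ∑ i ∈ Finset.Ico (j + 1) m, ((if i ∈ S then 1 else 3) * 2 ^ (E - ex i - 2) : ℤ) ≤
        ∑ i ∈ Finset.Ico (j + 1) m, pp E i := by
      apply Finset.sum_le_sum
      intro i hi
      rw [Finset.mem_Ico] at hi
      have h2 := hE i hi.2
      have h3 : pp E i = 4 * 2 ^ (E - ex i - 2) := by
        unfold pp
        rw [show (4 : ℤ) = 2 ^ 2 by norm_num, ← pow_add]
        congr 1
        omega
      have h4 : (0 : ℤ) < 2 ^ (E - ex i - 2) := by positivity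
      rw [h3]
      split_ifs <;> linarith
    have h2 := tail_small E m hE j hj
    have h3 : (1 : ℤ) ≤ 2 ^ ex j := one_le_pow₀ (by norm_num)
    have h4 := tail_nonneg E m j
    nlinarith
  · unfold rr
    rw [← Finset.sum_range_add_sum_Ico _ (show j + 1 ≤ m by omega), Finset.sum_range_succ, hk]
    ring

/-- **Independence.** -/
theorem indep (m : ℕ) : ∃ (D : ℕ) (κ : ℤ) (L W : ℕ → ℕ) (r : Finset ℕ → ℤ), 0 < D ∧
    ∀ S, ∀ j < m, ((∃ a c : ℤ, 0 ≤ a ∧ a ≤ L j ∧ 0 ≤ c ∧ c ≤ W j ∧ (D : ℤ) ∣ r S - (κ * a + c)) ↔ j ∈ S) := by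
  set E := ex m with hEdef
  have hE : ∀ j < m, ex j + 3 ≤ E := by
    intro j hj
    have := ex_lt hj
    omega
  refine ⟨2 ^ E, kap E m, fun j => 2 ^ ex j - 1, fun j => 2 ^ (E - ex j - 1), fun S => rr E m S, by positivity, ?_⟩
  intro S j hj
  have hEj := hE j hj
  obtain ⟨k, σ, hσ0, hσ1, hr⟩ := rr_split E m hE S j hj
  have hp4 : pp E j = 4 * 2 ^ (E - ex j - 2) := by
    unfold pp
    rw [show (4 : ℤ) = 2 ^ 2 by norm_num, ← pow_add]
    congr 1
    omega
  have hp2 : pp E j = 2 * 2 ^ (E - ex j - 1) := by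
    unfold pp
    rw [← pow_succ']
    congr 1
    omega
  have hL : (((2 ^ ex j - 1 : ℕ)) : ℤ) = 2 ^ ex j - 1 := by
    have : 1 ≤ 2 ^ ex j := Nat.one_le_two_pow
    push_cast [this]
    ring
  have hW : (((2 ^ (E - ex j - 1) : ℕ)) : ℤ) = 2 ^ (E - ex j - 1) := by push_cast; ring
  beta_reduce
  constructor
  · rintro ⟨a, c, ha0, ha1, hc0, hc1, hd⟩
    by_contra hjS
    rw [hr, if_neg hjS] at hd
    push_cast at hd
    rw [hL] at ha1
    rw [hW] at hc1
    exact miss E m hE j hj k _ (by linarith) (by linarith) a c ha0 (by linarith) hc0 (by linarith) hd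
  · intro hjS
    rw [hr, if_pos hjS]
    obtain ⟨a, c, ha0, ha1, hc0, hc1, hd⟩ := hit E m hE j hj k (1 * 2 ^ (E - ex j - 2) + σ)
      (by linarith) (by linarith)
    refine ⟨a, c, ha0, ?_, hc0, ?_, ?_⟩
    · rw [hL]; linarith
    · rw [hW]; linarith
    · push_cast
      exact hd

end Pool.Agent.Q250.VC
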