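import Pool.Agent.Q250.VC.Prog

/-!
# Progressions of bounded rank with large VC-dimension
-/

set_option autoImplicit false

namespace Pool.Agent.Q250.VC

open Multiplicative (ofAdd toAdd)

/-- pad a tuple of length `q` with `t` zeros -/
def pad {H : Type*} [Zero H] {q : ℕ} (t : ℕ) (b : Fin q → H) : Fin (q + t) → H :=
  Fin.addCases b (fun _ => 0)

@[simp] lemma pad_left {H : Type*} [Zero H] {q : ℕ} (t : ℕ) (b : Fin q → H) (i : Fin q) :
    pad t b (Fin.castAdd t i) = b i := by simp [pad]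

@[simp] lemma pad_right {H : Type*} [Zero H] {q : ℕ} (t : ℕ) (b : Fin q → H) (i : Fin t) :
    pad t b (Fin.natAdd q i) = 0 := by simp [pad]

lemma mem_pad {H : Type*} [AddCommGroup H] {q : ℕ} (t : ℕ) (b : Fin q → H) (N : Fin q → ℕ) (x : H) :
    ofAdd x ∈ Prog (fun i => ofAdd (pad t b i)) (pad t N) ↔
      ∃ n : Fin q → ℤ, (∀ i, |n i| ≤ N i) ∧ ∑ i, n i • b i = x := by
  rw [mem_prog]
  have key : ∀ n : Fin (q + t) → ℤ, ∏ i, (ofAdd (pad t b i)) ^ n i =
      ofAdd (∑ i : Fin q, n (Fin.castAdd t i) • b i) := by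
    intro n
    rw [ofAdd_sum, Fin.prod_univ_add]
    simp only [pad_left, pad_right, ofAdd_zero, one_zpow, Finset.prod_const_one, mul_one, ofAdd_zsmul]
  constructor
  · rintro ⟨n, hn, hx⟩
    refine ⟨fun i => n (Fin.castAdd t i), fun i => ?_, ?_⟩
    · have := hn (Fin.castAdd t i)
      rwa [pad_left] at this
    · rw [key] at hx
      exact ofAdd.injective hx
  · rintro ⟨n, hn, hx⟩
    refine ⟨pad t n, fun i => ?_, ?_⟩
    · refine Fin.addCases (fun i => ?_) (fun i => ?_) i
      · rw [pad_left, pad_left]; exact hn i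
      · rw [pad_right, pad_right]; simp
    · rw [key]
      simp only [pad_left]
      rw [hx]

/-- Rank `4 + t`, in the group `ℤ × ℤ × ℤ / D`. -/
theorem four (t m : ℕ) : ∃ (D : ℕ) (_ : 0 < D) (a : Fin (4 + t) → Multiplicative (ℤ × ℤ × ZMod D))
    (N : Fin (4 + t) → ℕ) (Y : Finset (Multiplicative (ℤ × ℤ × ZMod D))),
    Y.card = m ∧ Shatters (Prog a N) Y := by
  obtain ⟨D, κ, L, W, r, hD, h⟩ := indep m
  set M : ℕ := ∑ j ∈ Finset.range m, (L j + W j) with hM
  have hML : ∀ j < m, L j + W j ≤ M := fun j hj =>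
    Finset.single_le_sum (f := fun j => L j + W j) (fun i _ => Nat.zero_le _) (Finset.mem_range.2 hj)
  set b : Fin 4 → ℤ × ℤ × ZMod D := ![(1, 0, (κ : ZMod D)), (1, 0, 0), (0, 1, 1), (0, 1, 0)] with hb
  refine ⟨D, hD, fun i => ofAdd (pad t b i), pad t (fun _ => M), ?_⟩
  apply shatter_of _ m
    (fun j => ofAdd ((-2 * M + L j : ℤ), (-2 * M + W j : ℤ), ((-M * (κ + 1) : ℤ) : ZMod D)))
    (fun S => ofAdd ((0 : ℤ), (0 : ℤ), ((-r S : ℤ) : ZMod D)))
  intro S j hj
  rw [← h S j hj, ← ofAdd_neg, ← ofAdd_add, mem_pad]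
  have hMj := hML j hj
  have hMj' : (L j : ℤ) + W j ≤ M := by exact_mod_cast hMj
  have hL0 : (0 : ℤ) ≤ L j := by positivity
  have hW0 : (0 : ℤ) ≤ W j := by positivity
  constructor
  · rintro ⟨n, hn, hs⟩
    rw [Fin.sum_univ_four] at hs
    simp only [hb, Matrix.cons_val_zero, Matrix.cons_val_one, Matrix.cons_val, Prod.smul_mk, Prod.mk_add_mk,
      Prod.neg_mk, Prod.mk.injEq, smul_eq_mul, mul_one, mul_zero, add_zero, zero_add, smul_zero, neg_zero,
      zsmul_eq_mul] at hs
    obtain ⟨h1, h2, h3⟩ := hs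
    have b0 := abs_le.1 (hn 0)
    have b1 := abs_le.1 (hn 1)
    have b2 := abs_le.1 (hn 2)
    have b3 := abs_le.1 (hn 3)
    refine ⟨n 0 + M, n 2 + M, by linarith, by linarith, by linarith, by linarith, ?_⟩
    rw [← ZMod.intCast_zmod_eq_zero_iff_dvd]
    push_cast at h3 ⊢
    linear_combination -h3
  · rintro ⟨a, c, ha0, ha1, hc0, hc1, hd⟩
    refine ⟨![a - M, -M + L j - a, c - M, -M + W j - c], ?_, ?_⟩
    · intro i
      fin_cases i <;> simp only [Fin.zero_eta, Fin.mk_one, Fin.reduceFinMk, Matrix.cons_val_zero,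
        Matrix.cons_val_one, Matrix.cons_val] <;> rw [abs_le] <;> constructor <;> linarith
    · rw [Fin.sum_univ_four]
      simp only [hb, Matrix.cons_val_zero, Matrix.cons_val_one, Matrix.cons_val, Prod.smul_mk, Prod.mk_add_mk,
        Prod.neg_mk, Prod.mk.injEq, smul_eq_mul, mul_one, mul_zero, add_zero, zero_add, smul_zero, neg_zero,
        zsmul_eq_mul]
      refine ⟨by ring, by ring, ?_⟩
      rw [← ZMod.intCast_zmod_eq_zero_iff_dvd] at hd
      push_cast at hd ⊢
      linear_combination -hd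

/-- Rank `5 + t`, in the group `ℤ`. -/
theorem five (t m : ℕ) : ∃ (a : Fin (5 + t) → Multiplicative ℤ)
    (N : Fin (5 + t) → ℕ) (Y : Finset (Multiplicative ℤ)),
    Y.card = m ∧ Shatters (Prog a N) Y := by
  classical
  obtain ⟨D, κ, L, W, r, hD, h⟩ := indep m
  set M : ℕ := ∑ j ∈ Finset.range m, (L j + W j) with hM
  have hML : ∀ j < m, L j + W j ≤ M := fun j hj =>
    Finset.single_le_sum (f := fun j => L j + W j) (fun i _ => Nat.zero_le _) (Finset.mem_range.2 hj)
  -- only the values of `r` at subsets of `range m` matter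
  set r' : Finset ℕ → ℤ := fun S => r (S ∩ Finset.range m) with hr'
  have h' : ∀ S, ∀ j < m, ((∃ a c : ℤ, 0 ≤ a ∧ a ≤ L j ∧ 0 ≤ c ∧ c ≤ W j ∧
      (D : ℤ) ∣ r' S - (κ * a + c)) ↔ j ∈ S) := by
    intro S j hj
    rw [hr']
    beta_reduce
    rw [h _ j hj, Finset.mem_inter, Finset.mem_range]
    exact ⟨fun h => h.1, fun h => ⟨h, hj⟩⟩
  set R : ℤ := ∑ S ∈ (Finset.range m).powerset, |r S| with hR
  have hR' : ∀ S, |r' S| ≤ R := by
    intro S
    exact Finset.single_le_sum (f := fun S => |r S|) (fun i _ => abs_nonneg _)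
      (Finset.mem_powerset.2 (Finset.inter_subset_right))
  have hR0 : 0 ≤ R := Finset.sum_nonneg fun i _ => abs_nonneg _
  set T : ℕ := (R + |κ| * M + M).toNat with hT
  have hT' : (T : ℤ) = R + |κ| * M + M := by
    rw [hT, Int.toNat_of_nonneg (by positivity)]
  set Q : ℤ := 4 * (R + |κ| * M + M + D * T) + 4 * M + 1 with hQ
  have hDpos : (0 : ℤ) < D := by exact_mod_cast hD
  set b : Fin 5 → ℤ := ![Q ^ 2 + κ, Q ^ 2, Q + 1, Q, D] with hb
  refine ⟨fun i => ofAdd (pad t b i), pad t ![M, M, M, M, T], ?_⟩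
  apply shatter_of _ m
    (fun j => ofAdd ((-2 * M + L j) * Q ^ 2 + (-2 * M + W j) * Q + -M * (κ + 1) : ℤ))
    (fun S => ofAdd (-r' S))
  intro S j hj
  rw [← h' S j hj, ← ofAdd_neg, ← ofAdd_add, mem_pad]
  have hMj := hML j hj
  have hMj' : (L j : ℤ) + W j ≤ M := by exact_mod_cast hMj
  have hL0 : (0 : ℤ) ≤ L j := by positivity
  have hW0 : (0 : ℤ) ≤ W j := by positivity
  have hM0 : (0 : ℤ) ≤ M := by positivity
  have hT0 : (0 : ℤ) ≤ T := by positivity
  have hκ := abs_nonneg κ
  have hκM : |κ * M| = |κ| * M := by rw [abs_mul, Nat.abs_cast]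
  have hrS := abs_le.1 (hR' S)
  have hDT : (0 : ℤ) ≤ D * T := by positivity
  have hκM0 : 0 ≤ |κ| * (M : ℤ) := by positivity
  constructor
  · rintro ⟨n, hn, hs⟩
    rw [Fin.sum_univ_five] at hs
    simp only [hb, Matrix.cons_val_zero, Matrix.cons_val_one, Matrix.cons_val, smul_eq_mul] at hs
    have b0 := hn 0
    have b1 := abs_le.1 (hn 1)
    have b2 := abs_le.1 (hn 2)
    have b3 := abs_le.1 (hn 3)
    have b4 := hn 4
    simp only [Matrix.cons_val_zero, Matrix.cons_val_one, Matrix.cons_val] at b0 b1 b2 b3 b4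
    have hk0 : |κ * n 0| ≤ |κ| * M := by
      rw [abs_mul]; exact mul_le_mul_of_nonneg_left b0 hκ
    have hd4 : |D * n 4| ≤ D * T := by
      rw [abs_mul, Nat.abs_cast]; exact mul_le_mul_of_nonneg_left b4 hDpos.le
    have hk0' := abs_le.1 hk0
    have hd4' := abs_le.1 hd4
    have hkM' := abs_le.1 hκM.le
    have b0' := abs_le.1 b0
    -- compare the parts
    set u : ℤ := κ * n 0 + n 2 + D * n 4 - (-M * (κ + 1) + r' S) with hu
    set v : ℤ := n 2 + n 3 - (-2 * M + W j) with hv
    set w : ℤ := n 0 + n 1 - (-2 * M + L j) with hw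
    have hsum : w * Q ^ 2 + v * Q + u = 0 := by
      rw [hu, hv, hw]; linear_combination hs
    have hub : |u| < Q := by
      rw [abs_lt, hu, hQ]
      constructor <;> linarith
    have hvb : |v| < Q := by
      rw [abs_lt, hv, hQ]
      constructor <;> linarith
    have hQpos : 0 < Q := lt_of_le_of_lt (abs_nonneg _) hub
    have hu0 : u = 0 := by
      apply Int.eq_zero_of_abs_lt_dvd (m := Q) _ hub
      exact ⟨-(w * Q + v), by linear_combination hsum⟩
    have hv0 : v = 0 := by
      apply Int.eq_zero_of_abs_lt_dvd (m := Q) _ hvb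
      have : Q * (w * Q + v) = 0 := by rw [hu0] at hsum; linear_combination hsum
      rcases mul_eq_zero.1 this with h0 | h0
      · exact absurd h0 hQpos.ne'
      · exact ⟨-w, by linear_combination h0⟩
    have hw0 : w = 0 := by
      rw [hu0, hv0] at hsum
      have : w * Q ^ 2 = 0 := by linear_combination hsum
      rcases mul_eq_zero.1 this with h0 | h0
      · exact h0
      · exact absurd h0 (by positivity)
    refine ⟨n 0 + M, n 2 + M, by linarith, by linarith, by linarith, by linarith, ?_⟩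
    exact ⟨n 4, by rw [hu] at hu0; linear_combination -hu0⟩
  · rintro ⟨a, c, ha0, ha1, hc0, hc1, e, he⟩
    refine ⟨![a - M, -M + L j - a, c - M, -M + W j - c, e], ?_, ?_⟩
    · have hka : |κ * a| ≤ |κ| * M := by
        rw [abs_mul, abs_of_nonneg ha0]; exact mul_le_mul_of_nonneg_left (by linarith) hκ
      have hka' := abs_le.1 hka
      have he' : |D * e| ≤ T := by
        rw [← he, abs_le, hT']
        constructor <;> linarith
      have he2 : |e| ≤ T := by
        refine le_trans ?_ he'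
        rw [abs_mul, Nat.abs_cast]
        have : 0 ≤ |e| := abs_nonneg e
        nlinarith
      intro i
      fin_cases i
      · simp only [Fin.zero_eta, Matrix.cons_val_zero]
        rw [abs_le]; constructor <;> linarith
      · simp only [Fin.mk_one, Matrix.cons_val_one, Matrix.cons_val_zero]
        rw [abs_le]; constructor <;> linarith
      · simp only [Fin.reduceFinMk, Matrix.cons_val]
        rw [abs_le]; constructor <;> linarith
      · simp only [Fin.reduceFinMk, Matrix.cons_val]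
        rw [abs_le]; constructor <;> linarith
      · simp only [Fin.reduceFinMk, Matrix.cons_val]
        exact he2
    · rw [Fin.sum_univ_five]
      simp only [hb, Matrix.cons_val_zero, Matrix.cons_val_one, Matrix.cons_val, smul_eq_mul]
      linear_combination -he

end Pool.Agent.Q250.VC
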