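import Pool.Agent.Q250.VC.Arith

/-!
# Generalized progressions and shattering by left translates
-/

set_option autoImplicit false

namespace Pool.Agent.Q250.VC

/-- The left translates `g A` shatter the finite set `Y`: every subset `B` of `Y` is `(g A) ∩ Y` for some
`g`. -/
def Shatters {G : Type*} [Group G] (A : Set G) (Y : Finset G) : Prop :=
  ∀ B : Finset G, B ⊆ Y → ∃ g : G, ((fun x => g * x) '' A) ∩ (Y : Set G) = (B : Set G)

/-- The value of a word; the letter `(i, true)` is `a i` and the letter `(i, false)` is `(a i)⁻¹`. -/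
def val {G : Type*} [Group G] {k : ℕ} (a : Fin k → G) (w : List (Fin k × Bool)) : G :=
  (w.map fun p => if p.2 then a p.1 else (a p.1)⁻¹).prod

/-- The generalized progression: the values of the words in which, for every `i`, the letters `a i` and
`(a i)⁻¹` together occur at most `N i` times. -/
def Prog {G : Type*} [Group G] {k : ℕ} (a : Fin k → G) (N : Fin k → ℕ) : Set G :=
  {x | ∃ w : List (Fin k × Bool), (∀ i, (w.map Prod.fst).count i ≤ N i) ∧ val a w = x}

section comm

variable {G : Type*} [CommGroup G] {k : ℕ}

/-- exponent sum -/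
def exs (w : List (Fin k × Bool)) (i : Fin k) : ℤ :=
  (w.map fun p => if p.1 = i then (if p.2 then (1 : ℤ) else -1) else 0).sum

lemma exs_le (w : List (Fin k × Bool)) (i : Fin k) : |exs w i| ≤ ((w.map Prod.fst).count i : ℕ) := by
  induction w with
  | nil => simp [exs]
  | cons p w ih =>
    unfold exs at ih ⊢
    rw [List.map_cons, List.sum_cons, List.map_cons, List.count_cons]
    refine (abs_add_le _ _).trans ?_
    by_cases h : p.1 = i
    · simp only [h, if_true, beq_self_eq_true]
      push_cast
      have : |(if p.2 = true then (1 : ℤ) else -1)| ≤ 1 := by split_ifs <;> norm_num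
      linarith
    · have h' : (p.1 == i) = false := by simpa using h
      simp only [h, if_false, h', abs_zero, zero_add]
      push_cast
      simpa using ih

lemma val_eq (a : Fin k → G) (w : List (Fin k × Bool)) : val a w = ∏ i, a i ^ exs w i := by
  induction w with
  | nil => simp [val, exs]
  | cons p w ih =>
    have h1 : val a (p :: w) = (if p.2 then a p.1 else (a p.1)⁻¹) * val a w := by
      simp [val]
    have h2 : ∀ i, exs (p :: w) i = (if p.1 = i then (if p.2 then (1 : ℤ) else -1) else 0) + exs w i := by
      intro i; simp [exs]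
    rw [h1, ih]
    simp_rw [h2, zpow_add]
    rw [Finset.prod_mul_distrib]
    congr 1
    rw [Finset.prod_eq_single p.1]
    · simp only [if_true]
      split_ifs <;> simp
    · intro b _ hb
      rw [if_neg (Ne.symm hb), zpow_zero]
    · intro h; exact absurd (Finset.mem_univ _) h

/-- the word with prescribed exponents -/
def wrd (n : Fin k → ℤ) : List (Fin k × Bool) :=
  (List.finRange k).flatMap fun i => List.replicate (n i).natAbs (i, decide (0 ≤ n i))

lemma count_wrd (n : Fin k → ℤ) (i : Fin k) : ((wrd n).map Prod.fst).count i = (n i).natAbs := by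
  unfold wrd
  rw [List.map_flatMap, List.count_flatMap]
  have h : (List.map (List.count i ∘ fun a => List.map Prod.fst
      (List.replicate (n a).natAbs (a, decide (0 ≤ n a)))) (List.finRange k)) =
      (List.finRange k).map fun a => if a = i then (n i).natAbs else 0 := by
    apply List.map_congr_left
    intro a _
    simp only [Function.comp, List.map_replicate, List.count_replicate]
    by_cases h : a = i
    · subst h; simp
    · have : (a == i) = false := by simpa using h
      simp [h]
  rw [h]
  rw [← List.ofFn_eq_map, List.sum_ofFn]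
  simp

lemma val_wrd (a : Fin k → G) (n : Fin k → ℤ) : val a (wrd n) = ∏ i, a i ^ n i := by
  rw [val_eq]
  apply Finset.prod_congr rfl
  intro i _
  congr 1
  unfold exs wrd
  rw [List.map_flatMap]
  have hfm : ∀ (l : List (Fin k)) (f : Fin k → List ℤ), (l.flatMap f).sum = (l.map fun a => (f a).sum).sum := by
    intro l f
    induction l with
    | nil => simp
    | cons b l ih => simp [List.flatMap_cons, ih]
  rw [hfm, ← List.ofFn_eq_map, List.sum_ofFn, Finset.sum_eq_single i]
  · simp only [List.map_replicate, if_true, List.sum_replicate]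
    by_cases h : 0 ≤ n i
    · simp only [h, decide_true, if_true]
      rw [nsmul_eq_mul]
      have := Int.natAbs_of_nonneg h
      push_cast
      rw [abs_of_nonneg h]; ring
    · simp only [h, decide_false]
      rw [nsmul_eq_mul]
      push_cast
      rw [abs_of_neg (by omega)]
      simp
  · intro b _ hb
    simp [List.map_replicate, hb]
  · intro h; exact absurd (Finset.mem_univ _) h

theorem mem_prog (a : Fin k → G) (N : Fin k → ℕ) (x : G) :
    x ∈ Prog a N ↔ ∃ n : Fin k → ℤ, (∀ i, |n i| ≤ N i) ∧ ∏ i, a i ^ n i = x := by
  constructor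
  · rintro ⟨w, hw, rfl⟩
    exact ⟨exs w, fun i => (exs_le w i).trans (by exact_mod_cast hw i), (val_eq a w).symm⟩
  · rintro ⟨n, hn, rfl⟩
    refine ⟨wrd n, fun i => ?_, val_wrd a n⟩
    rw [count_wrd]
    have := hn i
    rw [Int.abs_eq_natAbs] at this
    exact_mod_cast this

end comm

/-- a criterion for a large shattered set -/
lemma shatter_of {G : Type*} [CommGroup G] (A : Set G) (m : ℕ) (y : ℕ → G) (x : Finset ℕ → G)
    (h : ∀ S, ∀ j < m, (y j * (x S)⁻¹ ∈ A ↔ j ∈ S)) :
    ∃ Y : Finset G, Y.card = m ∧ Shatters A Y := by
  classical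
  have hinj : Set.InjOn y (Finset.range m) := by
    intro i hi j hj hij
    rw [Finset.mem_coe, Finset.mem_range] at hi hj
    have h1 := (h {i} i hi).2 (Finset.mem_singleton_self i)
    rw [hij] at h1
    have h2 := (h {i} j hj).1 h1
    exact (Finset.mem_singleton.1 h2).symm
  refine ⟨(Finset.range m).image y, ?_, ?_⟩
  · rw [Finset.card_image_of_injOn hinj, Finset.card_range]
  · intro B hB
    set S : Finset ℕ := (Finset.range m).filter fun j => y j ∈ B with hS
    refine ⟨x S, ?_⟩
    ext z
    simp only [Set.mem_inter_iff, Finset.mem_coe, Set.mem_image]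
    constructor
    · rintro ⟨⟨a, ha, rfl⟩, hz⟩
      obtain ⟨j, hj, hj2⟩ := Finset.mem_image.1 hz
      have hj' := Finset.mem_range.1 hj
      have h1 : y j * (x S)⁻¹ ∈ A := by
        rw [hj2]
        have : x S * a * (x S)⁻¹ = a := by rw [mul_comm (x S) a, mul_assoc, mul_inv_cancel, mul_one]
        rw [this]; exact ha
      have h2 := (h S j hj').1 h1
      rw [← hj2]
      exact (Finset.mem_filter.1 h2).2
    · intro hz
      obtain ⟨j, hj, hj2⟩ := Finset.mem_image.1 (hB hz)
      have hj' := Finset.mem_range.1 hj
      refine ⟨⟨y j * (x S)⁻¹, ?_, ?_⟩, hB hz⟩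
      · apply (h S j hj').2
        rw [hS, Finset.mem_filter]
        exact ⟨hj, by rw [hj2]; exact hz⟩
      · rw [← hj2, mul_comm (y j), ← mul_assoc, mul_inv_cancel, one_mul]

end Pool.Agent.Q250.VC
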